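import Pool.Agent.OneSided.Kernel

/-!
MP_b47c0e_co.  One-sided regular sets of size `(α δ ^ 2 / 128) ^ (2 ^ (6 / δ)) n` (polynomial in `α`
for fixed `δ`); they are two-sided regular on average, for all pairs of partitions into `k` parts,
`k` small compared with `1 / α`.
-/

set_option autoImplicit false
set_option linter.unusedSectionVars false

namespace Pool.Agent.Results.MP_b47c0e_co.OneSidedRegular

open Finset Pool.Agent.OneSided

section graph

variable {V : Type*} [DecidableEq V] (G : SimpleGraph V) [DecidableRel G.Adj]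

/-- adjacency indicator -/
def adj (x y : V) : ℝ := if G.Adj x y then 1 else 0

theorem adj_symm (x y : V) : adj G x y = adj G y x := by
  unfold adj; simp [G.adj_comm]

theorem adj_nonneg (x y : V) : 0 ≤ adj G x y := by unfold adj; split_ifs <;> norm_num

theorem adj_le_one (x y : V) : adj G x y ≤ 1 := by unfold adj; split_ifs <;> norm_num

/-- number of edges and density -/
theorem E_adj (S T : Finset V) :
    E (adj G) S T = (G.edgeDensity S T : ℝ) * (S.card * T.card) := by
  have h : E (adj G) S T = ((G.interedges S T).card : ℝ) := by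
    unfold E
    rw [SimpleGraph.interedges_def, ← sum_product', card_filter]
    push_cast
    refine sum_congr rfl fun x _ => ?_
    unfold adj
    rfl
  rcases S.eq_empty_or_nonempty with hS | hS
  · subst hS; simp [E]
  rcases T.eq_empty_or_nonempty with hT | hT
  · subst hT; simp [E]
  have hs : (S.card : ℝ) ≠ 0 := by exact_mod_cast hS.card_pos.ne'
  have ht : (T.card : ℝ) ≠ 0 := by exact_mod_cast hT.card_pos.ne'
  rw [h, SimpleGraph.edgeDensity_def]
  push_cast
  field_simp

theorem density_nonneg (S T : Finset V) : (0 : ℝ) ≤ (G.edgeDensity S T : ℝ) := by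
  exact_mod_cast G.edgeDensity_nonneg S T

/-- the one-sided theorem for graphs, with both conclusions -/
theorem main [Fintype V] [Nonempty V] {α δ : ℝ} (hα0 : 0 < α) (hα1 : α ≤ 1) (hδ0 : 0 < δ)
    (hδ1 : δ ≤ 1) :
    ∃ U : Finset V, U.Nonempty ∧
      (α * δ ^ 2 / 128) ^ ((2 : ℝ) ^ (6 / δ)) * Fintype.card V ≤ U.card ∧
      (∀ A, A ⊆ U → ∀ B, B ⊆ U → α * U.card ≤ A.card → α * U.card ≤ B.card →
        (G.edgeDensity A B : ℝ) ≤ (G.edgeDensity U U : ℝ) + δ) ∧
      ∀ (k : ℕ) (f g : V → Fin k), ∑ i, ∑ j,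
        ((U.filter (f · = i)).card : ℝ) * (U.filter (g · = j)).card *
          |(G.edgeDensity (U.filter (f · = i)) (U.filter (g · = j)) : ℝ) -
            (G.edgeDensity U U : ℝ)| ≤ 2 * (δ + 2 * k * α) * (U.card : ℝ) ^ 2 := by
  obtain ⟨X, hX, hc, h⟩ := one_sided (adj G) (adj_symm G) (adj_nonneg G) (adj_le_one G)
    hδ0 hδ1 hα0 hα1
  have hX0 : (0 : ℝ) < X.card := by exact_mod_cast hX.card_pos
  have hD : E (adj G) X X = (G.edgeDensity X X : ℝ) * (X.card : ℝ) ^ 2 := by
    rw [E_adj]; ring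
  refine ⟨X, hX, hc, ?_, ?_⟩
  · intro A hA B hB hAc hBc
    have h3 := h A hA B hB hAc hBc
    have hA0 : (0 : ℝ) < A.card := lt_of_lt_of_le (by positivity) hAc
    have hB0 : (0 : ℝ) < B.card := lt_of_lt_of_le (by positivity) hBc
    rw [hD, E_adj] at h3
    have hpos : (0 : ℝ) < A.card * B.card * (X.card : ℝ) ^ 2 := by positivity
    refine le_of_mul_le_mul_right ?_ hpos
    calc (G.edgeDensity A B : ℝ) * (A.card * B.card * (X.card : ℝ) ^ 2) =
        (G.edgeDensity A B : ℝ) * (A.card * B.card) * (X.card : ℝ) ^ 2 := by ring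
      _ ≤ _ := h3
      _ = _ := by ring
  · intro k f g
    refine le_trans (le_of_eq ?_) (averaged (adj G) (adj_le_one G) hδ0 hα0 X hX k _ hD
      (density_nonneg G X X) h f g)
    refine sum_congr rfl fun i _ => sum_congr rfl fun j _ => ?_
    rw [E_adj, ← sub_mul, abs_mul,
      abs_of_nonneg (show (0 : ℝ) ≤ ((X.filter (f · = i)).card : ℝ) *
        ((X.filter (g · = j)).card : ℝ) by positivity)]
    ring

end graph

/-- For all `0 < α, δ ≤ 1` every finite graph on `n ≥ 1` vertices has a nonempty vertex set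
`U`, `|U| ≥ (α δ ^ 2 / 128) ^ (2 ^ (6 / δ)) n`, such that
`d(A,B) ≤ d(U,U) + δ` for all `A, B ⊆ U` with `|A|, |B| ≥ α |U|`, and
`∑_(i,j) |A_i| |B_j| |d(A_i,B_j) - d(U,U)| ≤ 2 (δ + 2 k α) |U| ^ 2` for every `k` and any two
partitions `A_i`, `B_j` of `U` into `k` parts (some of them may be empty). -/
theorem result : ∀ α δ : ℝ, 0 < α → α ≤ 1 → 0 < δ → δ ≤ 1 →
    ∀ (V : Type) [Fintype V] [DecidableEq V] [Nonempty V] (G : SimpleGraph V)
      [DecidableRel G.Adj],
      ∃ U : Finset V, U.Nonempty ∧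
        (α * δ ^ 2 / 128) ^ ((2 : ℝ) ^ (6 / δ)) * (Fintype.card V : ℝ) ≤ (U.card : ℝ) ∧
        (∀ A, A ⊆ U → ∀ B, B ⊆ U → α * U.card ≤ A.card → α * U.card ≤ B.card →
          (G.edgeDensity A B : ℝ) ≤ (G.edgeDensity U U : ℝ) + δ) ∧
        ∀ (k : ℕ) (f g : V → Fin k), ∑ i, ∑ j,
          ((U.filter (f · = i)).card : ℝ) * ((U.filter (g · = j)).card : ℝ) *
            |(G.edgeDensity (U.filter (f · = i)) (U.filter (g · = j)) : ℝ) -
              (G.edgeDensity U U : ℝ)| ≤ 2 * (δ + 2 * k * α) * (U.card : ℝ) ^ 2 := by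
  intro α δ hα0 hα1 hδ0 hδ1 V _ _ _ G _
  exact main G hα0 hα1 hδ0 hδ1

end Pool.Agent.Results.MP_b47c0e_co.OneSidedRegular
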