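import Pool.Agent.RLog.Hard
import Pool.Agent.RLog.Easy

/-!
# MP_b47c0e_co: Q1 is a Ramsey problem for sets of logarithmic size

`IsReg G ε U`: the nonempty set `U` is `ε`-regular (the definition of the problem).
-/

set_option autoImplicit false

namespace Pool.Agent.Results.MP_b47c0e_co.SampleEquivalence

/-- The nonempty vertex set `U` is `ε`-regular. -/
def IsReg {V : Type} (G : SimpleGraph V) [DecidableRel G.Adj] (ε : ℝ) (U : Finset V) : Prop :=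
  U.Nonempty ∧ ∀ X ⊆ U, ∀ Y ⊆ U, ε * (U.card : ℝ) ≤ X.card → ε * (U.card : ℝ) ≤ Y.card →
    |(G.edgeDensity X Y : ℝ) - (G.edgeDensity U U : ℝ)| ≤ ε

/-- A regular set is regular for every larger tolerance. -/
private theorem IsReg_mono {V : Type} {G : SimpleGraph V} [DecidableRel G.Adj] {ε ε' : ℝ}
    (h : ε' ≤ ε) {U : Finset V} (hU : IsReg G ε' U) : IsReg G ε U := by
  refine ⟨hU.1, fun X hX Y hY h1 h2 => ?_⟩
  have h0 : ε' * (U.card : ℝ) ≤ ε * U.card := by gcongr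
  exact (hU.2 X hX Y hY (h0.trans h1) (h0.trans h2)).trans h

theorem result (A : ℝ) (hA : 0 < A) :
    (∃ C : ℝ, 0 < C ∧ ∀ ε : ℝ, 0 < ε → ε < 1 / 2 →
      ∀ (n : ℕ) (G : SimpleGraph (Fin n)) [DecidableRel G.Adj], 1 ≤ n →
        ∃ U : Finset (Fin n), IsReg G ε U ∧ (2 : ℝ) ^ (-(ε ^ (-C))) * n ≤ U.card) ↔
    (∃ B : ℝ, 0 < B ∧ ∀ ε : ℝ, 0 < ε → ε < 1 / 2 →
      ∃ N : ℕ, 2 ≤ N ∧ (N : ℝ) ≤ 2 ^ (ε ^ (-B)) ∧
        ∀ (G : SimpleGraph (Fin N)) [DecidableRel G.Adj],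
          ∃ U : Finset (Fin N), IsReg G ε U ∧ ε ^ (-A) * Real.logb 2 N ≤ U.card) := by
  constructor
  · rintro ⟨C, hC, H⟩
    refine ⟨max C A + 4, by positivity, fun ε hε hε2 => ?_⟩
    exact RLog.easy hA hC hε hε2 fun n G _ hn => H ε hε hε2 n G hn
  · rintro ⟨B, hB, H⟩
    set s : ℝ := max 1 (3 / A) with hs
    have hs1 : 1 ≤ s := le_max_left _ _
    have hs3 : 3 ≤ s * A := by
      have h1 : 3 / A ≤ s := le_max_right _ _
      rwa [div_le_iff₀ hA] at h1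
    have hs0 : 0 < s := by linarith
    refine ⟨26 * (s * B + 1) + 6, by positivity, fun δ hδ hδ2 n G _ hn => ?_⟩
    have hε : 0 < δ ^ 12 / 2 ^ 14 := by positivity
    have hε2 : δ ^ 12 / 2 ^ 14 < 1 / 2 := by
      have h1 : δ ^ 12 ≤ 1 := pow_le_one₀ hδ.le (by linarith)
      have h2 : δ ^ 12 / 2 ^ 14 ≤ 1 / 2 ^ 14 := by gcongr
      norm_num at h2 ⊢
      linarith
    have hε' : 0 < (δ ^ 12 / 2 ^ 14) ^ s := by positivity
    have hle : (δ ^ 12 / 2 ^ 14) ^ s ≤ δ ^ 12 / 2 ^ 14 := by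
      calc (δ ^ 12 / 2 ^ 14) ^ s ≤ (δ ^ 12 / 2 ^ 14) ^ (1 : ℝ) :=
            Real.rpow_le_rpow_of_exponent_ge hε (by linarith) hs1
        _ = _ := Real.rpow_one _
    obtain ⟨N, hN, hNB, hG⟩ := H _ hε' (by linarith)
    obtain ⟨U, hU, hU2⟩ := RLog.hard (B := s * B) (A := s * A) (by positivity) hδ hδ2 hs3
      ⟨N, hN, by
        rw [← Real.rpow_mul hε.le] at hNB
        rwa [← mul_neg], fun G' _ => by
        obtain ⟨W, hW, hW2⟩ := hG G'
        refine ⟨W, IsReg_mono hle hW, ?_⟩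
        rw [← Real.rpow_mul hε.le] at hW2
        rwa [← mul_neg]⟩
      (by rw [Fintype.card_fin]; omega) G
    rw [Fintype.card_fin] at hU2
    exact ⟨U, hU, hU2⟩

end Pool.Agent.Results.MP_b47c0e_co.SampleEquivalence
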