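import Pool.Agent.RTY.Final

/-!
# MP_b47c0e_co: two-sided regular sets are exponentially small

Let `k` be about `α^(-1/2) / 1000`, `M = 1000 k²`, `p` a prime about `1/(10δ)`, `r = (p+1)/2`,
`γ = 1/p > 4δ` (for `δ ≥ 1/32`: `r = 1`, `γ = 1`).

The base structure (`RTY/Base`): a symmetric relation `W` of the leaves of the binary tree of depth
`k`. Every pair of nodes of one level gets a random bit, `1` with probability `1/(30k)`; `W(a,b)` is
the parity of the bits of the pairs of nodes above `a, b`, from the level of the first difference on.
Property `Good2`: let `x_1, ..., x_M` be leaves which differ from each other and from the leaves `y_j`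
before level `t`, and let nodes `v_j` (`y_j` below `v_j`), none above another, be such that at least
`M` different nodes of levels `> t` lie above them (or are among them). Then for each value `b` there
is a nonempty set of pairs `(i, j)` such that, however one chooses leaves `y_j'` below the `v_j`, more
than 3/4 of these pairs have `W(x_i, y_j') = b`: the bits of the nodes on the paths change the parity
of some pairs and not of others (`M² / (30k)` bits are expected to be 1), and later changes are so
rare that `3 k M` binary choices cannot undo this. The proof chooses the bits level by level such that
a potential (weight 1/2 for an unchanged and 8 for a changed pair at the end) does not increase.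

The graph: the leaves are those of the binary tree of depth `r k`, two leaves `a, b` with first
difference at level `l` have density `γ (2 (l mod r) + W(a',b'))`, `a', b'` the coordinates whose
level is congruent to `l` modulo `r`; quasirandom (characters).

Let `U` be regular, `D = d(U,U)`, `A = α|U|`. The levels `l` whose two densities are not both far from
`D` lie in one residue class `ρ` modulo `r`; a node with at least `A` points of `U` loses less than `4A`
points between two of them. So a class (all leaves with the same first `τ` coordinates of the residue
class `ρ`) with at least `7A` points contains a node with at least `5A` points (`RTY/Vis`), and all but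
`4A` points `x` of `U` have density `D` up to `δ₁` to such a node (`RTY/Exc`), so `W(x, .)` has the
same average on all such nodes. If no class of full depth has `7A` points, let `t` be the level at
which half of `U` has left the classes with `|U|/(5M)` points. From there on there are at least `M`
classes with `≥ 7A` points on one side (each loses at most `14A` points per level, `1/8` of `U` has to be
lost), and on the other side there are `M` different classes of level `t + 1` with a good point `x_i`
(not among the at most `4AM ≤ |U|/20` exceptional points). This contradicts `Good2`. Hence there is a
leaf with `5A` points: `5 α |U| ≤ 2^(-r k) n`.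
-/

set_option autoImplicit false

namespace Pool.Agent.Results.MP_b47c0e_co.TwoSidedUpperBound

open Finset

theorem result : ∃ c : ℝ, 0 < c ∧ ∀ α δ : ℝ, 0 < α → α ≤ c → 0 < δ → δ < 1 / 4 → ∀ N : ℕ,
    ∃ (V : Type) (_ : Fintype V) (_ : DecidableEq V) (G : SimpleGraph V)
      (_ : DecidableRel G.Adj), N ≤ Fintype.card V ∧
      ∀ U : Finset V, U.Nonempty →
        (∀ A, A ⊆ U → ∀ B, B ⊆ U → α * U.card ≤ A.card → α * U.card ≤ B.card →
          |(G.edgeDensity A B : ℝ) - (G.edgeDensity U U : ℝ)| ≤ δ) →
        (U.card : ℝ) < Real.exp (-(c / δ * α ^ (-(1 / 2) : ℝ))) * (Fintype.card V : ℝ) :=
  Pool.Agent.RTY.final2

end Pool.Agent.Results.MP_b47c0e_co.TwoSidedUpperBound
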